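import Pool.Agent.Helper48.AED.Main
import Pool.Agent.Helper40.AED.MOB

/-!
Lower bounds for the maximal size `g d` of almost-equidistant sets of diameter one in `ℝ^d`: joins of
configurations from the Hoffman-Singleton graph (50 points, rank 29), a weighted Möbius ladder
(8 points, rank 5), the regular pentagon (5 points, rank 3) and single points.
-/

namespace Pool.Agent.Results.MP_8e9e20_co.JoinLowerBound

open Pool.AED48

theorem result :
    (∀ d a b c e : ℕ, 1 ≤ d → 29 * a + 5 * b + 3 * c + e = d + 1 →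
      50 * a + 8 * b + 5 * c + e ≤ g d) ∧
    (∀ d : ℕ, 1 ≤ d → 50 * (d + 1) ≤ 29 * g d + 66) :=
  ⟨fun _ _ _ _ _ hd h => lower_g (Or.inr Pool.Agent.Helper40.AED.MOB.main) hd h,
    fun d hd => asym Pool.Agent.Helper40.AED.MOB.main d hd⟩

end Pool.Agent.Results.MP_8e9e20_co.JoinLowerBound
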