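import Pool.Agent.Helper48.AED.Main

/-!
Almost-equidistant sets of diameter one in `ℝ^d` have at most `2 d + 1` points; the bound is attained
for `d = 1, 2`.
-/

namespace Pool.Agent.Results.MP_8e9e20_co.LinearUpperBound

open Pool.AED48

theorem result :
    (∀ (d : ℕ) (V : Finset (EuclideanSpace ℝ (Fin d))), IsDiameterSet V → V.card ≤ 2 * d + 1) ∧
    (∀ d : ℕ, 1 ≤ d → ∃ V : Finset (EuclideanSpace ℝ (Fin d)), IsDiameterSet V ∧ V.card = g d) ∧
    (∀ d : ℕ, g d ≤ 2 * d + 1) ∧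
    g 1 = 3 ∧ g 2 = 5 :=
  ⟨fun _ V hV => card_le V hV, attained, g_le, g_one, g_two⟩

end Pool.Agent.Results.MP_8e9e20_co.LinearUpperBound
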